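import Pool.Agent.Lib.PN93.Cx

/-! The polynomial numerical index of order two of the complex spaces `L¹(μ)`. -/

namespace Pool.Agent.Results.MP_6cf06e_an.ComplexLOneSecond
open Pool.Agent.Lib.PN93 MeasureTheory

theorem result (Ω : Type) [MeasurableSpace Ω] (μ : Measure Ω) (S T : Set Ω)
    (hS : MeasurableSet S) (hT : MeasurableSet T) (hd : Disjoint S T)
    (S0 : 0 < μ S) (S1 : μ S < ⊤) (T0 : 0 < μ T) (T1 : μ T < ⊤) :
    nIdx ℂ (Lp ℂ 1 μ) 2 ∈ Set.Icc (1 / √6) (1 / 2) :=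
  have ex := Cx.upper hS hT hd S0.ne' S1.ne T0.ne' T1.ne
  ⟨le_nIdx (by positivity) ex Cx.lower, nIdx_le ex⟩

end Pool.Agent.Results.MP_6cf06e_an.ComplexLOneSecond
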