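import Pool.Agent.Lib.PN93.CK

/-! The polynomial numerical indices of all orders of the real spaces `C(K)`. -/

namespace Pool.Agent.Results.MP_6cf06e_an.ContinuousAllOrders
open Pool.Agent.Lib.PN93

theorem result (K : Type) [TopologicalSpace K] [CompactSpace K] [T2Space K] [Nontrivial K]
    (k : ℕ) (hk : 1 ≤ k) : nIdx ℝ C(K, ℝ) k = 1 / 2 ^ (k - 1) :=
  ck_index hk

end Pool.Agent.Results.MP_6cf06e_an.ContinuousAllOrders
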