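import Pool.Agent.Lib.PN93.Real

/-! The polynomial numerical index of order four of the real space `L¹[0,1]`. -/

namespace Pool.Agent.Results.MP_6cf06e_an.RealLOneFour
open Pool.Agent.Lib.PN93 MeasureTheory

theorem result : nIdx ℝ (Lp ℝ 1 (volume.restrict (Set.Icc (0 : ℝ) 1))) 4 ∈
    Set.Icc (100000 / 799994 : ℝ) (1000 / 7999) := by
  convert order_four using 2 <;> norm_num

end Pool.Agent.Results.MP_6cf06e_an.RealLOneFour
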