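import Pool.Agent.Lib.PN93.Real

/-! The polynomial numerical indices of the real space `L¹[0,1]`, all orders but four. -/

namespace Pool.Agent.Results.MP_6cf06e_an.RealLOneOrders
open Pool.Agent.Lib.PN93 MeasureTheory

theorem result (k : ℕ) (hk : 1 ≤ k) (h4 : k ≠ 4) :
    nIdx ℝ (Lp ℝ 1 (volume.restrict (Set.Icc (0 : ℝ) 1))) k =
      max (1 / 2 ^ (k - 1)) (((k : ℝ) - 1) ^ (k - 1) / (k : ℝ) ^ k) :=
  all_orders hk h4

end Pool.Agent.Results.MP_6cf06e_an.RealLOneOrders
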